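import Pool.Agent.Q181.SV.Asm
import Pool.Agent.Q181.SV.Par
import Pool.Agent.Q181.SV.Frame
import Pool.Agent.Q181.SV.Adj
import Pool.Agent.Q181.SV.Adj3
import Pool.Agent.Q181.SV.Avoid
import Pool.Agent.Q181.SV.Facet
import Pool.Agent.Q181.SV.Net
import Pool.Agent.Q181.SV.Top
import Pool.Agent.Q181.SV.Curve
import Pool.Agent.Q181.SV.Trans

/-!
# Shadows of Vietoris-Rips complexes of samples of a closed curve (MP_937632_gt)

For every `N ≥ 4` there is a smooth simple closed curve `M` in `ℝ^N` such that for all small
`β > 0` and all `δ > 0` some finite `S` with `d_H(S, M) < δ` has a shadow which is not homotopy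
equivalent to a circle.
-/

set_option autoImplicit false

namespace Pool.Agent.Results.MP_937632_gt.ShadowNotCircle

open Pool.Agent.Q181.SV Metric

/-- For every `N ≥ 4` there are a smooth simple closed curve `M` in `ℝ^N` and `β₀ > 0` such that
for every `β` with `0 < β < β₀` and every `δ > 0` there is a finite nonempty set `S` with
Hausdorff distance less than `δ` from `M` such that the shadow of the Vietoris-Rips complex of
`S` at scale `β` is not homotopy equivalent to a circle. -/
theorem result (N : ℕ) (hN : 4 ≤ N) :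
    ∃ M : Set (E N), IsClosedCurve M ∧ ∃ β₀ : ℝ, 0 < β₀ ∧ ∀ β : ℝ, 0 < β → β < β₀ →
      ∀ δ : ℝ, 0 < δ → ∃ S : Set (E N), S.Finite ∧ S.Nonempty ∧ hausdorffDist S M < δ ∧
        ¬ Nonempty (ContinuousMap.HomotopyEquiv (shadow β S) Circle) :=
  result' t_param t_frame (t_avoid t_adj2 t_adj3) (t_facet t_adj1) t_near t_net t_top t_curve
    t_trans N hN

end Pool.Agent.Results.MP_937632_gt.ShadowNotCircle
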